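import Mathlib
import Pool.Agent.Helper95.CASDefs
import Pool.Agent.Helper94.CM.Fin
import Pool.Agent.Helper94.CM.M_AD
import Pool.Agent.Helper94.CM.M_AS
import Pool.Agent.Helper94.CM.M_BB
import Pool.Agent.Helper94.CM.M_CP
import Pool.Agent.Helper94.CM.M_FN
import Pool.Agent.Helper94.CM.M_HA
import Pool.Agent.Helper94.CM.M_HB
import Pool.Agent.Helper94.CM.M_HC
import Pool.Agent.Helper94.CM.M_HF
import Pool.Agent.Helper94.CM.M_HS
import Pool.Agent.Helper94.CM.M_HU
import Pool.Agent.Helper94.CM.M_KP
import Pool.Agent.Helper94.CM.M_PR
import Pool.Agent.Helper94.CM.M_RC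
import Pool.Agent.Helper94.CM.M_RF
import Pool.Agent.Helper94.CM.M_RO
import Pool.Agent.Helper94.CM.M_SP
import Pool.Agent.Helper94.CM.M_TR
import Pool.Agent.Helper94.CM.M_TT
import Pool.Agent.Helper94.CM.M_UN
import Pool.Agent.Helper94.CM.M_UU
import Pool.Agent.Helper94.CM.M_VH
import Pool.Agent.Helper94.CM.M_VR

set_option autoImplicit false

/-!
A commutative continuous association scheme `(X, D, K)` such that no continuous association scheme
with the same spaces and the same partition map has property (T2). The witness has
`X = R^3 × H^3` (Euclidean and hyperbolic space) and `D = Sym^2 [0, ∞)`, and the partition map sends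
a pair of points to the unordered pair of the Euclidean distance of the first components and the
hyperbolic distance of the second components. The measures `K(x, h; ·)` and the convolution come
from the spherical averages.
-/

namespace Pool.Agent.Results.MP_466bd8_al.NoT2Commutative

open MeasureTheory TopologicalSpace Pool.Agent.Helper95.CAS Pool.Agent.Helper94.CM

/-- There are second countable locally compact Hausdorff spaces `X`, `D` and a commutative continuous
association scheme `(X, D, K)` such that no continuous association scheme (commutative or not) with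
the same `X`, `D` and the same partition map has property (T2). -/
theorem result :
    ∃ (X D : Type) (_ : TopologicalSpace X) (_ : MeasurableSpace X) (_ : BorelSpace X)
      (_ : TopologicalSpace D) (_ : MeasurableSpace D) (_ : BorelSpace D),
      T2Space X ∧ LocallyCompactSpace X ∧ SecondCountableTopology X ∧
      T2Space D ∧ LocallyCompactSpace D ∧ SecondCountableTopology D ∧
      ∃ (H : Hypergroup D) (C : PreCAS X D H), H.IsCommutative ∧ C.IsCAS ∧
        ∀ (H' : Hypergroup D) (C' : PreCAS X D H'), C'.IsCAS → C'.part = C.part → ¬ C'.T2 :=
  final hHA hRO hTR hUU hBB hRC hRF hHB hHS hHU hHC hHF hTT hAS hCP hSP hAD hPR hUN hKP hVH hVR hFN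

end Pool.Agent.Results.MP_466bd8_al.NoT2Commutative
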